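import Mathlib
import Pool.Agent.R330.GL.Top

/-!
# A descent by gcds with slowly varying second arguments: the Farey tree of large gcds

`a k = a (k - 1) - γ k`, `γ k ∣ a (k - 1)`, `γ k ∣ V k`, for `s < k ≤ f`, where `a s = V s = X`,
`a f = 0` and `V` increases from `X` to `X + T`, `T` much smaller than `X`. If `γ k` and `γ m` are
two of the gcds with `γ k γ m ≥ 2 T X` then the gcds in between add up to at least
`γ k γ m / (4 X)`, because `γ k γ m` divides `a k V m - a (m - 1) V k`.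
-/

set_option autoImplicit false

namespace Pool.Agent.H618.GZ

open Finset Pool.Agent.R330.GL

/-- the data of the descent from time `s` to time `f` -/
structure Dsc (s f J : ℕ) (V a γ : ℕ → ℤ) (X T : ℤ) : Prop where
  one : a s = X
  step : ∀ k, s < k → k ≤ f → a k = a (k - 1) - γ k
  pos : ∀ k, s < k → k ≤ f → 1 ≤ γ k
  dvda : ∀ k, s < k → k ≤ f → γ k ∣ a (k - 1)
  dvdV : ∀ k, s < k → k ≤ f → γ k ∣ V k
  zero : a f = 0
  hJ : f = s + J
  hJ1 : 1 ≤ J
  nn : ∀ k, s ≤ k → k ≤ f → 0 ≤ a k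
  Vs : V s = X
  Vlt : ∀ k m, s ≤ k → k < m → m ≤ f → V k < V m ∧ V m - V k ≤ T
  Xpos : 0 < X
  TX : 16 * T ≤ X

variable {s f J : ℕ} {V a γ : ℕ → ℤ} {X T : ℤ}

lemma Dsc.T0 (h : Dsc s f J V a γ X T) : 0 < T := by
  have h1 := h.hJ
  have h2 := h.hJ1
  have h3 := h.Vlt s f le_rfl (by omega) le_rfl
  linarith [h3.1, h3.2]

lemma Dsc.Vle (h : Dsc s f J V a γ X T) {k : ℕ} (hk : s ≤ k) (hkf : k ≤ f) :
    X ≤ V k ∧ V k ≤ X + T := by
  have hT := h.T0
  rcases Nat.eq_or_lt_of_le hk with h1 | h1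
  · rw [← h1, h.Vs]
    exact ⟨le_rfl, by linarith⟩
  · have h2 := h.Vlt s k le_rfl h1 hkf
    rw [h.Vs] at h2
    exact ⟨h2.1.le, by linarith [h2.2]⟩

lemma Dsc.diff (h : Dsc s f J V a γ X T) {n : ℕ} (hn : s ≤ n) :
    ∀ k, n ≤ k → k ≤ f → ((k : ℤ) - n) ≤ a n - a k := by
  intro k hk
  induction k, hk using Nat.le_induction with
  | base => intro _; simp
  | succ k hk ih =>
    intro hkf
    have h1 := ih (by omega)
    have h2 := h.step (k + 1) (by omega) hkf
    have h3 := h.pos (k + 1) (by omega) hkf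
    rw [Nat.add_sub_cancel] at h2
    push_cast
    linarith

lemma Dsc.up (h : Dsc s f J V a γ X T) {n : ℕ} (hn : s ≤ n) (hnf : n ≤ f) : a n ≤ X := by
  have h1 := h.diff le_rfl n hn hnf
  have h2 := h.one
  have h3 : (s : ℤ) ≤ n := by exact_mod_cast hn
  linarith

lemma Dsc.apos (h : Dsc s f J V a γ X T) {n : ℕ} (hn : s ≤ n) (hnf : n < f) : 0 < a n := by
  have h1 := h.diff hn f hnf.le le_rfl
  rw [h.zero] at h1
  have h3 : (n : ℤ) < f := by exact_mod_cast hnf
  linarith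

lemma Dsc.sumb (h : Dsc s f J V a γ X T) (c B : ℤ) {n : ℕ} (hn : s ≤ n) :
    ∀ k, n ≤ k → k ≤ f → (∀ j, n < j → j ≤ k → γ j * c ≤ B) →
      (a n - a k) * c ≤ ((k : ℤ) - n) * B := by
  intro k hk
  induction k, hk using Nat.le_induction with
  | base => intro _ _; simp
  | succ k hk ih =>
    intro hkf hj
    have h1 := ih (by omega) (fun j hj1 hj2 => hj j hj1 (by omega))
    have h2 := h.step (k + 1) (by omega) hkf
    have h3 := hj (k + 1) (by omega) le_rfl
    rw [Nat.add_sub_cancel] at h2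
    push_cast
    rw [h2]
    have e1 : (a n - (a k - γ (k + 1))) * c = (a n - a k) * c + γ (k + 1) * c := by ring
    have e2 : ((k : ℤ) + 1 - n) * B = ((k : ℤ) - n) * B + B := by ring
    rw [e1, e2]
    linarith

lemma Dsc.key (h : Dsc s f J V a γ X T) {k m : ℕ} (hk : s < k) (hm : m ≤ f) (hkm : k < m) :
    γ k * γ m ≤ 2 * X * (a k - a (m - 1)) + T * X := by
  have hs := h.diff (n := k) (by omega) (m - 1) (by omega) (by omega)
  have hA := h.up (n := k) (by omega) (by omega)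
  have hA0 := h.apos (n := k) (by omega) (by omega)
  have hT := h.T0
  have hX := h.Xpos
  have hTX := h.TX
  have hV := h.Vlt k m (by omega) hkm hm
  have hVk := h.Vle (k := k) (by omega) (by omega)
  have d1 : γ k ∣ a k := by
    rw [h.step k hk (by omega)]
    exact dvd_sub (h.dvda k hk (by omega)) dvd_rfl
  have d2 := h.dvdV k hk (by omega)
  have d3 := h.dvda m (by omega) hm
  have d4 := h.dvdV m (by omega) hm
  have d5 : γ k * γ m ∣ a k * V m - a (m - 1) * V k := by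
    apply dvd_sub
    · exact mul_dvd_mul d1 d4
    · rw [mul_comm (γ k)]
      exact mul_dvd_mul d3 d2
  have hD : 0 ≤ a k - a (m - 1) := by
    have : ((k : ℤ)) ≤ ((m - 1 : ℕ) : ℤ) := by exact_mod_cast (by omega : k ≤ m - 1)
    linarith
  have e1 : a k * V m - a (m - 1) * V k = (a k - a (m - 1)) * V k + a k * (V m - V k) := by ring
  rw [e1] at d5
  have p1 : 0 ≤ (a k - a (m - 1)) * V k := mul_nonneg hD (by linarith)
  have p2 : 0 < a k * (V m - V k) := mul_pos hA0 (by linarith [hV.1])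
  have h5 := Int.le_of_dvd (by linarith) d5
  have p3 : (a k - a (m - 1)) * V k ≤ (a k - a (m - 1)) * (2 * X) :=
    mul_le_mul_of_nonneg_left (by linarith) hD
  have p4 : a k * (V m - V k) ≤ X * T :=
    mul_le_mul hA hV.2 (by linarith [hV.1]) hX.le
  calc γ k * γ m ≤ _ := h5
    _ ≤ (a k - a (m - 1)) * (2 * X) + X * T := add_le_add p3 p4
    _ = _ := by ring

/-- between two large gcds there is a third one -/
lemma Dsc.mid (h : Dsc s f J V a γ X T) {k m : ℕ} (hk : s < k) (hm : m ≤ f) (hkm : k < m)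
    (hbig : 2 * (T * X) ≤ γ k * γ m) :
    ∃ j, k < j ∧ j < m ∧ γ k * γ m ≤ γ j * (4 * X * J) := by
  by_contra hcon
  push Not at hcon
  have hT := h.T0
  have hX := h.Xpos
  have hJ := h.hJ
  have hJ1 := h.hJ1
  have hJ0 : (0 : ℤ) < J := by exact_mod_cast hJ1
  have hTX : 0 < T * X := mul_pos hT hX
  have hs := h.sumb (4 * X * J) (γ k * γ m) (n := k) (by omega) (m - 1) (by omega) (by omega) (by
    intro j hj1 hj2
    exact (hcon j (by omega) (by omega)).le)
  have hk' := h.key hk hm hkm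
  have hm1 : ((m - 1 : ℕ) : ℤ) = (m : ℤ) - 1 := by omega
  rw [hm1] at hs
  have h4 : γ k * γ m ≤ 4 * X * (a k - a (m - 1)) := by linarith
  have h5 : γ k * γ m * J ≤ 4 * X * (a k - a (m - 1)) * J :=
    mul_le_mul_of_nonneg_right h4 hJ0.le
  have h6 : (m : ℤ) ≤ s + J := by exact_mod_cast (by omega : m ≤ s + J)
  have h7 : (s : ℤ) < k := by exact_mod_cast hk
  have h8 : ((m : ℤ) - 1 - k) * (γ k * γ m) < J * (γ k * γ m) :=
    mul_lt_mul_of_pos_right (by linarith) (by linarith)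
  have e : 4 * X * (a k - a (m - 1)) * J = (a k - a (m - 1)) * (4 * X * J) := by ring
  linarith

/-- the Farey tree of large gcds -/
lemma Dsc.farey (h : Dsc s f J V a γ X T) (b : ℤ) (hb : 1 ≤ b) (K : ℕ)
    (hbK : T * b ^ K ≤ 8 * X * J ^ 2) :
    ∀ r P Q : ℕ, K < P + Q + r → 1 ≤ P → 1 ≤ Q → ∀ k m : ℕ, s < k → m ≤ f → k < m →
      4 * X * J ≤ γ k * b ^ P → 4 * X * J ≤ γ m * b ^ Q →
      (S P Q K).card + 1 ≤ m - k := by
  have hT := h.T0
  have hX := h.Xpos
  have hJ1 := h.hJ1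
  have hJ0 : (0 : ℤ) < J := by exact_mod_cast hJ1
  have hW : 0 < 4 * X * (J : ℤ) := by positivity
  have hb0 : 0 < b := by linarith
  intro r
  induction r with
  | zero =>
    intro P Q hK hP hQ k m hk hm hkm _ _
    rw [S_empty P Q K hP hQ (by omega)]
    omega
  | succ r ih =>
    intro P Q hK hP hQ k m hk hm hkm h1 h2
    rcases Nat.lt_or_ge K (P + Q) with hlt | hge
    · rw [S_empty P Q K hP hQ hlt]
      omega
    have hgk := h.pos k hk (by omega)
    have hgm := h.pos m (by omega) hm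
    have hprod : (4 * X * (J : ℤ)) * (4 * X * J) ≤ γ k * γ m * b ^ (P + Q) := by
      calc (4 * X * (J : ℤ)) * (4 * X * J) ≤ (γ k * b ^ P) * (γ m * b ^ Q) :=
            mul_le_mul h1 h2 hW.le (by positivity)
        _ = γ k * γ m * b ^ (P + Q) := by rw [pow_add]; ring
    have hbPQ : b ^ (P + Q) ≤ b ^ K := pow_le_pow_right₀ hb hge
    have hgg : 0 ≤ γ k * γ m := by positivity
    have hbig : 2 * (T * X) ≤ γ k * γ m := by
      have h3 : (4 * X * (J : ℤ)) * (4 * X * J) ≤ γ k * γ m * b ^ K :=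
        hprod.trans (mul_le_mul_of_nonneg_left hbPQ hgg)
      have h4 : 2 * (T * X) * b ^ K ≤ γ k * γ m * b ^ K := by
        have h5 : (T * b ^ K) * (2 * X) ≤ (8 * X * (J : ℤ) ^ 2) * (2 * X) :=
          mul_le_mul_of_nonneg_right hbK (by linarith)
        calc 2 * (T * X) * b ^ K = (T * b ^ K) * (2 * X) := by ring
          _ ≤ (8 * X * (J : ℤ) ^ 2) * (2 * X) := h5
          _ = (4 * X * (J : ℤ)) * (4 * X * J) := by ring
          _ ≤ _ := h3
      exact le_of_mul_le_mul_right h4 (by positivity)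
    obtain ⟨j, hj1, hj2, hj⟩ := h.mid hk hm hkm hbig
    have hjW : 4 * X * (J : ℤ) ≤ γ j * b ^ (P + Q) := by
      have h5 : (4 * X * (J : ℤ)) * (4 * X * J) ≤ (γ j * b ^ (P + Q)) * (4 * X * J) := by
        calc (4 * X * (J : ℤ)) * (4 * X * J) ≤ γ k * γ m * b ^ (P + Q) := hprod
          _ ≤ γ j * (4 * X * J) * b ^ (P + Q) :=
            mul_le_mul_of_nonneg_right hj (by positivity)
          _ = (γ j * b ^ (P + Q)) * (4 * X * J) := by ring
      exact le_of_mul_le_mul_right h5 hW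
    have i1 := ih P (P + Q) (by omega) hP (by omega) k j hk (by omega) hj1 h1 hjW
    have i2 := ih (P + Q) Q (by omega) (by omega) hQ j m (by omega) hm hj2 hjW h2
    have i3 := card_S_le P Q K hP hQ
    omega

/-- two gcds of size at least `X / (16 J)` -/
lemma Dsc.top (h : Dsc s f J V a γ X T) :
    ∃ k m : ℕ, s < k ∧ m ≤ f ∧ k < m ∧ X ≤ γ k * (16 * J) ∧ X ≤ γ m * (16 * J) := by
  classical
  have hT := h.T0
  have hX := h.Xpos
  have hTX := h.TX
  have hJ := h.hJ
  have hJ1 := h.hJ1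
  have hJ0 : (0 : ℤ) < J := by exact_mod_cast hJ1
  have hfJ : (f : ℤ) = s + J := by exact_mod_cast hJ
  have hex : ∃ k, s ≤ k ∧ k ≤ f ∧ X ≤ 16 * (X - a k) :=
    ⟨f, by omega, le_rfl, by rw [h.zero]; linarith⟩
  set n1 := Nat.find hex with hn1
  obtain ⟨hk1, hkf, hk2⟩ := Nat.find_spec hex
  rw [← hn1] at hk1 hkf hk2
  have hn12 : s < n1 := by
    by_contra hcon
    have : n1 = s := by omega
    rw [this, h.one] at hk2
    linarith
  have hprev : 16 * (X - a (n1 - 1)) < X := by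
    by_contra hcon
    exact Nat.find_min hex (m := n1 - 1) (by omega) ⟨by omega, by omega, by linarith⟩
  have hstep := h.step n1 hn12 hkf
  have hup := h.up (n := n1 - 1) (by omega) (by omega)
  have hVn := h.Vle (k := n1) (by omega) hkf
  have hg1 : γ n1 ≤ V n1 - a (n1 - 1) := by
    apply Int.le_of_dvd
    · have h3 := h.Vlt s n1 le_rfl hn12 hkf
      rw [h.Vs] at h3
      linarith [h3.1]
    · exact dvd_sub (h.dvdV n1 hn12 hkf) (h.dvda n1 hn12 hkf)
  have hquart : 13 * X < 16 * a n1 := by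
    rw [hstep]
    linarith [hVn.2]
  have hn1f : n1 < f := by
    rcases Nat.eq_or_lt_of_le hkf with h1 | h1
    · rw [h1, h.zero] at hquart
      linarith
    · exact h1
  obtain ⟨k, hks, hkn1, hkbig⟩ : ∃ k, s < k ∧ k ≤ n1 ∧ X ≤ γ k * (16 * J) := by
    by_contra hcon
    push Not at hcon
    have h1 := h.sumb (16 * J) X (n := s) le_rfl n1 hk1 hkf
      (fun j hj1 hj2 => (hcon j hj1 hj2).le)
    rw [h.one] at h1
    have h2 : ((n1 : ℤ) - s) * X < J * X := by
      apply mul_lt_mul_of_pos_right _ hX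
      have : (n1 : ℤ) < f := by exact_mod_cast hn1f
      linarith
    have h3 : X * J ≤ 16 * (X - a n1) * J := mul_le_mul_of_nonneg_right hk2 hJ0.le
    nlinarith
  obtain ⟨m, hmn1, hmf, hmbig⟩ : ∃ m, n1 < m ∧ m ≤ f ∧ X ≤ γ m * (16 * J) := by
    by_contra hcon
    push Not at hcon
    have h1 := h.sumb (16 * J) X (n := n1) hk1 f hkf le_rfl
      (fun j hj1 hj2 => (hcon j hj1 hj2).le)
    rw [h.zero] at h1
    have h2 : ((f : ℤ) - n1) * X ≤ J * X := by
      apply mul_le_mul_of_nonneg_right _ hX.le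
      have : (s : ℤ) ≤ n1 := by exact_mod_cast hk1
      linarith
    have h3 : 13 * X * J ≤ 16 * a n1 * J := mul_le_mul_of_nonneg_right hquart.le hJ0.le
    have h4 : 0 < X * J := by positivity
    nlinarith
  exact ⟨k, m, hks, hmf, by omega, hkbig, hmbig⟩

/-- the lower bound in a finite form -/
lemma Dsc.finite (h : Dsc s f J V a γ X T) (K M : ℕ) (hM : 1 ≤ M) (hMK : 2 * M ≤ K)
    (hK : T * ((64 : ℤ) * J ^ 2) ^ K ≤ 8 * X * J ^ 2) :
    ((M : ℝ)) ^ 2 / 4 ≤ (J : ℝ) := by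
  have hJ := h.hJ
  have hJ1 := h.hJ1
  have hJ0 : (1 : ℤ) ≤ J := by exact_mod_cast hJ1
  obtain ⟨k, m, hk, hm, hkm, h1, h2⟩ := h.top
  have hb : (1 : ℤ) ≤ 64 * J ^ 2 := by nlinarith
  have e : ∀ i, X ≤ γ i * (16 * J) → 4 * X * (J : ℤ) ≤ γ i * (64 * (J : ℤ) ^ 2) ^ 1 := by
    intro i hi
    have := mul_le_mul_of_nonneg_right hi (show (0 : ℤ) ≤ 4 * J by positivity)
    calc 4 * X * (J : ℤ) = X * (4 * J) := by ring
      _ ≤ γ i * (16 * J) * (4 * J) := this
      _ = γ i * (64 * (J : ℤ) ^ 2) ^ 1 := by ring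
  have h3 := h.farey (64 * J ^ 2) hb K hK K 1 1 (by omega) le_rfl le_rfl k m hk hm hkm
    (e k h1) (e m h2)
  have h4 := card_S_one K M hM hMK
  have h5 : (S 1 1 K).card ≤ J := by omega
  exact h4.trans (by exact_mod_cast h5)

end Pool.Agent.H618.GZ
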