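import Mathlib
import Pool.Agent.H618.GZ.Core

/-!
# The Farey tree of large gcds without loss: many small gcds in place of one large gcd

Between two large gcds `γ k`, `γ m` the gcds add up to `D ≥ γ k γ m / (4 X)`. Either one of them is at
least `D / b` (`b = 4096`), or for some `v ≥ 1` more than `160 v ^ 3` of them are at least
`D / b ^ (v + 1)`, and then the gaps between these already contain enough further gcds.
-/

set_option autoImplicit false

namespace Pool.Agent.H618.GZ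

open Finset Pool.Agent.R330.GL

lemma geom (V : ℕ) : ∑ v ∈ Icc 1 V, (1 / 512 : ℝ) ^ v = (1 - (1 / 512 : ℝ) ^ V) / 511 := by
  induction V with
  | zero => simp
  | succ V ih =>
    rw [sum_Icc_succ_top (by omega), ih, pow_succ]
    ring

/-- the pigeonhole principle for a sum -/
lemma pig (A : Finset ℕ) (γ : ℕ → ℤ) (hpos : ∀ j ∈ A, 1 ≤ γ j) (D : ℤ)
    (hD : D = ∑ j ∈ A, γ j) (hD0 : 0 < D) :
    (∃ j ∈ A, D ≤ γ j * 4096) ∨
      ∃ v : ℕ, 1 ≤ v ∧ 160 * v ^ 3 + 1 ≤ (A.filter (fun j => D ≤ γ j * 4096 ^ (v + 1))).card := by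
  classical
  by_contra hcon
  push Not at hcon
  obtain ⟨h1, h2⟩ := hcon
  obtain ⟨V, hV⟩ : ∃ V : ℕ, D = V := ⟨D.toNat, (Int.toNat_of_nonneg hD0.le).symm⟩
  have hDr : (0 : ℝ) < (D : ℝ) := by exact_mod_cast hD0
  have hterm : ∀ j ∈ A, (γ j : ℝ) ≤
      ∑ v ∈ Icc 1 V, if D ≤ γ j * 4096 ^ (v + 1) then (D : ℝ) / 4096 ^ v else 0 := by
    intro j hj
    have hg := hpos j hj
    have hex : ∃ v : ℕ, D ≤ γ j * 4096 ^ (v + 1) := by
      refine ⟨V, ?_⟩
      have e1 : (V : ℤ) ≤ 4096 ^ (V + 1) := by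
        have : V ≤ 4096 ^ (V + 1) := by
          calc V ≤ V + 1 := by omega
            _ ≤ 2 ^ (V + 1) := Nat.lt_two_pow_self.le
            _ ≤ 4096 ^ (V + 1) := Nat.pow_le_pow_left (by norm_num) _
        exact_mod_cast this
      have e2 : (1 : ℤ) * 4096 ^ (V + 1) ≤ γ j * 4096 ^ (V + 1) :=
        mul_le_mul_of_nonneg_right hg (by positivity)
      linarith
    set v := Nat.find hex with hv
    have hv1 : D ≤ γ j * 4096 ^ (v + 1) := Nat.find_spec hex
    have hv0 : 1 ≤ v := by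
      by_contra h0
      have h3 : v = 0 := by omega
      rw [h3] at hv1
      have := h1 j hj
      simp at hv1
      linarith
    have hvV : v ≤ V := by
      apply Nat.find_min' hex
      have e1 : (V : ℤ) ≤ 4096 ^ (V + 1) := by
        have : V ≤ 4096 ^ (V + 1) := by
          calc V ≤ V + 1 := by omega
            _ ≤ 2 ^ (V + 1) := Nat.lt_two_pow_self.le
            _ ≤ 4096 ^ (V + 1) := Nat.pow_le_pow_left (by norm_num) _
        exact_mod_cast this
      have e2 : (1 : ℤ) * 4096 ^ (V + 1) ≤ γ j * 4096 ^ (V + 1) :=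
        mul_le_mul_of_nonneg_right hg (by positivity)
      linarith
    have hmin : γ j * 4096 ^ v < D := by
      have := Nat.find_min hex (m := v - 1) (by omega)
      rw [not_le] at this
      have e : v - 1 + 1 = v := by omega
      rwa [e] at this
    have hminr : (γ j : ℝ) * 4096 ^ v < D := by exact_mod_cast hmin
    have hle : (γ j : ℝ) ≤ (D : ℝ) / 4096 ^ v := by
      rw [le_div_iff₀ (by positivity)]
      exact hminr.le
    calc (γ j : ℝ) ≤ (D : ℝ) / 4096 ^ v := hle
      _ = if D ≤ γ j * 4096 ^ (v + 1) then (D : ℝ) / 4096 ^ v else 0 := by rw [if_pos hv1]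
      _ ≤ _ := by
        apply single_le_sum (f := fun v : ℕ =>
          if D ≤ γ j * 4096 ^ (v + 1) then (D : ℝ) / 4096 ^ v else 0) _ (mem_Icc.mpr ⟨hv0, hvV⟩)
        intro i _
        split_ifs
        · positivity
        · exact le_rfl
  have hsum : (D : ℝ) ≤ ∑ v ∈ Icc 1 V, (160 * (v : ℝ) ^ 3) * ((D : ℝ) / 4096 ^ v) := by
    calc (D : ℝ) = ∑ j ∈ A, (γ j : ℝ) := by rw [hD]; push_cast; rfl
      _ ≤ ∑ j ∈ A, ∑ v ∈ Icc 1 V, (if D ≤ γ j * 4096 ^ (v + 1) then (D : ℝ) / 4096 ^ v else 0) :=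
        sum_le_sum hterm
      _ = ∑ v ∈ Icc 1 V, ∑ j ∈ A, (if D ≤ γ j * 4096 ^ (v + 1) then (D : ℝ) / 4096 ^ v else 0) :=
        sum_comm
      _ ≤ _ := by
        apply sum_le_sum
        intro v hv
        rw [mem_Icc] at hv
        rw [← sum_filter, sum_const, nsmul_eq_mul]
        apply mul_le_mul_of_nonneg_right _ (by positivity)
        have := h2 v hv.1
        exact_mod_cast (by omega :
          (A.filter (fun j => D ≤ γ j * 4096 ^ (v + 1))).card ≤ 160 * v ^ 3)
  have hfin : ∑ v ∈ Icc 1 V, (160 * (v : ℝ) ^ 3) * ((D : ℝ) / 4096 ^ v) ≤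
      ∑ v ∈ Icc 1 V, (160 * (D : ℝ)) * (1 / 512 : ℝ) ^ v := by
    apply sum_le_sum
    intro v _
    have e1 : (v : ℝ) ^ 3 ≤ 8 ^ v := by
      have e2 : (v : ℝ) ≤ 2 ^ v := by exact_mod_cast Nat.lt_two_pow_self.le
      calc (v : ℝ) ^ 3 ≤ (2 ^ v) ^ 3 := pow_le_pow_left₀ (by positivity) e2 3
        _ = 8 ^ v := by rw [← pow_mul, mul_comm, pow_mul]; norm_num
    have e3 : (1 / 512 : ℝ) ^ v = 8 ^ v / 4096 ^ v := by
      rw [← div_pow]; norm_num
    rw [e3]
    calc (160 * (v : ℝ) ^ 3) * ((D : ℝ) / 4096 ^ v) ≤ (160 * 8 ^ v) * ((D : ℝ) / 4096 ^ v) :=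
          mul_le_mul_of_nonneg_right (by linarith) (by positivity)
      _ = _ := by ring
  rw [← mul_sum, geom] at hfin
  have h3 : (0 : ℝ) ≤ (1 / 512 : ℝ) ^ V := by positivity
  have h4 : 160 * (D : ℝ) * ((1 - (1 / 512 : ℝ) ^ V) / 511) ≤ 160 * (D : ℝ) * (1 / 511) :=
    mul_le_mul_of_nonneg_left (by linarith) (by positivity)
  linarith

/-- a set with gaps at least `g` -/
lemma spread (A : Finset ℕ) (hA : A.Nonempty) (g : ℕ) (hg : 1 ≤ g)
    (h : ∀ i ∈ A, ∀ j ∈ A, i < j → g ≤ j - i) :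
    (A.card - 1) * g ≤ A.max' hA - A.min' hA := by
  classical
  set x := A.min' hA with hx
  set y := A.max' hA with hy
  have h1 : A.card ≤ (range ((y - x) / g + 1)).card := by
    apply card_le_card_of_injOn (fun j => (j - x) / g)
    · intro j hj
      have hj1 : x ≤ j := A.min'_le j hj
      have hj2 : j ≤ y := A.le_max' j hj
      rw [mem_coe, mem_range]
      exact Nat.lt_succ_of_le (Nat.div_le_div_right (by omega))
    · intro i hi j hj hij
      simp only at hij
      have hi1 : x ≤ i := A.min'_le i hi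
      have hj1 : x ≤ j := A.min'_le j hj
      by_contra hne
      rcases Nat.lt_or_gt_of_ne hne with hlt | hlt
      · have h2 := h i hi j hj hlt
        have h3 : (i - x) / g + 1 ≤ (j - x) / g := by
          rw [← Nat.add_div_right _ (by omega)]
          exact Nat.div_le_div_right (by omega)
        omega
      · have h2 := h j hj i hi hlt
        have h3 : (j - x) / g + 1 ≤ (i - x) / g := by
          rw [← Nat.add_div_right _ (by omega)]
          exact Nat.div_le_div_right (by omega)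
        omega
  rw [card_range] at h1
  have h2 : A.card - 1 ≤ (y - x) / g := by
    generalize (y - x) / g = z at h1 ⊢
    omega
  calc (A.card - 1) * g ≤ ((y - x) / g) * g := Nat.mul_le_mul_right _ h2
    _ ≤ y - x := Nat.div_mul_le_self _ _

/-- the change of the number of pairs when a weight grows -/
lemma card_S_change (P Q K v : ℕ) (hP : 1 ≤ P) (hQ : 1 ≤ Q) :
    (S P Q K).card ≤ (S P (Q + v) K).card + v * (K / Q) ^ 2 := by
  classical
  have hsub : S P Q K ⊆ S P (Q + v) K ∪ (S P Q K).filter (fun t => K < t.1 * P + t.2 * (Q + v)) := by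
    intro t ht
    rw [mem_union, mem_filter]
    by_cases h : t.1 * P + t.2 * (Q + v) ≤ K
    · left
      rw [mem_S hP hQ] at ht
      rw [mem_S hP (by omega)]
      exact ⟨ht.1, ht.2.1, ht.2.2.1, h⟩
    · right
      exact ⟨ht, by omega⟩
  have hcard : ((S P Q K).filter (fun t => K < t.1 * P + t.2 * (Q + v))).card ≤
      ((Icc 1 (K / Q)) ×ˢ (range ((K / Q) * v))).card := by
    apply card_le_card_of_injOn (fun t => (t.2, K - t.2 * Q - t.1 * P))
    · intro t ht
      rw [mem_coe, mem_filter, mem_S hP hQ] at ht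
      obtain ⟨⟨h1, h2, _, h4⟩, h5⟩ := ht
      have h6 : t.2 ≤ K / Q := by
        rw [Nat.le_div_iff_mul_le (by omega)]
        omega
      rw [mem_coe, mem_product, mem_Icc, mem_range]
      refine ⟨⟨h2, h6⟩, ?_⟩
      simp only
      have h7 : t.2 * (Q + v) = t.2 * Q + t.2 * v := by ring
      have h8 : t.2 * v ≤ (K / Q) * v := Nat.mul_le_mul_right _ h6
      omega
    · intro t ht u hu htu
      rw [mem_coe, mem_filter, mem_S hP hQ] at ht hu
      obtain ⟨⟨h1, h2, _, h4⟩, h5⟩ := ht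
      obtain ⟨⟨k1, k2, _, k4⟩, k5⟩ := hu
      simp only [Prod.mk.injEq] at htu
      obtain ⟨e1, e2⟩ := htu
      rw [e1] at e2 h4
      have e3 : t.1 * P = u.1 * P := by omega
      have e4 : t.1 = u.1 := Nat.eq_of_mul_eq_mul_right (by omega) e3
      exact Prod.ext e4 e1
  rw [card_product, Nat.card_Icc, card_range] at hcard
  calc (S P Q K).card ≤ _ := card_le_card hsub
    _ ≤ _ := card_union_le _ _
    _ ≤ (S P (Q + v) K).card + v * (K / Q) ^ 2 := by
      apply Nat.add_le_add_left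
      refine hcard.trans (le_of_eq ?_)
      simp only [Nat.add_sub_cancel]
      ring

lemma card_S_comm (P Q K : ℕ) (hP : 1 ≤ P) (hQ : 1 ≤ Q) : (S P Q K).card = (S Q P K).card := by
  classical
  apply card_bij (fun t _ => (t.2, t.1))
  · intro t ht
    rw [mem_S hP hQ] at ht
    rw [mem_S hQ hP]
    exact ⟨ht.2.1, ht.1, ht.2.2.1.symm, by simp only; omega⟩
  · intro t _ u _ h
    simp only [Prod.mk.injEq] at h
    exact Prod.ext h.2 h.1
  · intro t ht
    rw [mem_S hQ hP] at ht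
    refine ⟨(t.2, t.1), ?_, rfl⟩
    rw [mem_S hP hQ]
    exact ⟨ht.2.1, ht.1, ht.2.2.1.symm, by simp only; omega⟩

/-- the number of pairs with equal weights -/
lemma card_S_diag (A K : ℕ) (hA : 1 ≤ A) : (K / A + 1) ^ 2 ≤ 20 * ((S A A K).card + 1) := by
  classical
  set Z := K / A with hZ
  have hsub : S 1 1 Z ⊆ S A A K := by
    intro t ht
    rw [mem_S le_rfl le_rfl] at ht
    rw [mem_S hA hA]
    refine ⟨ht.1, ht.2.1, ht.2.2.1, ?_⟩
    have h1 : t.1 + t.2 ≤ Z := by
      have := ht.2.2.2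
      omega
    calc t.1 * A + t.2 * A = (t.1 + t.2) * A := by ring
      _ ≤ Z * A := Nat.mul_le_mul_right _ h1
      _ ≤ K := Nat.div_mul_le_self _ _
  have h1 := card_le_card hsub
  rcases Nat.lt_or_ge Z 2 with h | h
  · have : (Z + 1) ^ 2 ≤ 4 := by interval_cases Z <;> norm_num
    omega
  · have h2 := card_S_one Z (Z / 2) (by omega) (by omega)
    have h3 : (((Z : ℝ) - 1) / 2) ≤ ((Z / 2 : ℕ) : ℝ) := by
      have : Z ≤ 2 * (Z / 2) + 1 := by omega
      have : (Z : ℝ) ≤ 2 * ((Z / 2 : ℕ) : ℝ) + 1 := by exact_mod_cast this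
      linarith
    have hZr : (2 : ℝ) ≤ Z := by exact_mod_cast h
    have h4 : (((Z : ℝ) - 1) / 2) ^ 2 ≤ (((Z / 2 : ℕ) : ℝ)) ^ 2 :=
      pow_le_pow_left₀ (by linarith) h3 2
    have h5 : ((S 1 1 Z).card : ℝ) ≤ (S A A K).card := by exact_mod_cast h1
    have h6 : ((Z : ℝ) + 1) ^ 2 ≤ 20 * (((S A A K).card : ℝ) + 1) := by
      nlinarith [sq_nonneg ((Z : ℝ) - 9)]
    exact_mod_cast h6

end Pool.Agent.H618.GZ
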