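import Mathlib
import Pool.Agent.H618.GZ.Sharp

/-!
# The Farey tree of large gcds without loss, second part: the induction
-/

set_option autoImplicit false

namespace Pool.Agent.H618.GZ

open Finset Pool.Agent.R330.GL

variable {s f J : ℕ} {V a γ : ℕ → ℤ} {X T : ℤ}

lemma Dsc.telescope (h : Dsc s f J V a γ X T) {k : ℕ} (hk : s ≤ k) :
    ∀ m, k ≤ m → m ≤ f → a k - a m = ∑ j ∈ Ioc k m, γ j := by
  intro m hm
  induction m, hm using Nat.le_induction with
  | base => intro _; simp
  | succ m hm ih =>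
    intro hmf
    have h1 := ih (by omega)
    have h2 := h.step (m + 1) (by omega) hmf
    rw [Nat.add_sub_cancel] at h2
    rw [sum_Ioc_succ_top hm, ← h1, h2]
    ring

/-- many gcds of weight `w` between `k` and `m` -/
lemma numerics (K R v : ℕ) (hR : 1 ≤ R) (hv : 1 ≤ v) (g N : ℕ)
    (hg : (K / (R + v) + 1) ^ 2 ≤ 20 * g) (hN : 160 * v ^ 3 ≤ N) :
    2 * (v * (K / R) ^ 2) ≤ N * g := by
  set Z := K / (R + v) with hZ
  have h1 : K < (Z + 1) * (R + v) := by
    have := Nat.lt_div_mul_add (a := K) (b := R + v) (by omega)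
    rw [← hZ] at this
    calc K < Z * (R + v) + (R + v) := this
      _ = _ := by ring
  have h2 : R + v ≤ R * (1 + v) := by nlinarith
  have h3 : K < ((Z + 1) * (1 + v)) * R := by
    calc K < (Z + 1) * (R + v) := h1
      _ ≤ (Z + 1) * (R * (1 + v)) := Nat.mul_le_mul_left _ h2
      _ = _ := by ring
  have h4 : K / R < (Z + 1) * (1 + v) := by
    rw [Nat.div_lt_iff_lt_mul (by omega)]
    exact h3
  have h5 : K / R ≤ (Z + 1) * (2 * v) := h4.le.trans (Nat.mul_le_mul_left _ (by omega))
  have h6 : (K / R) ^ 2 ≤ ((Z + 1) * (2 * v)) ^ 2 := Nat.pow_le_pow_left h5 2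
  have h7 : 2 * (v * (K / R) ^ 2) ≤ 8 * v ^ 3 * (Z + 1) ^ 2 := by
    calc 2 * (v * (K / R) ^ 2) ≤ 2 * (v * ((Z + 1) * (2 * v)) ^ 2) := by gcongr
      _ = _ := by ring
  calc 2 * (v * (K / R) ^ 2) ≤ 8 * v ^ 3 * (Z + 1) ^ 2 := h7
    _ ≤ 8 * v ^ 3 * (20 * g) := Nat.mul_le_mul_left _ hg
    _ = (160 * v ^ 3) * g := by ring
    _ ≤ N * g := Nat.mul_le_mul_right _ hN

/-- the Farey tree of large gcds -/
lemma Dsc.farey2 (h : Dsc s f J V a γ X T) (K : ℕ)
    (hbK : T * 4096 ^ K ≤ 8 * 4096 ^ 2 * X) :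
    ∀ r p q : ℕ, K < p + q + r → 1 ≤ p → 1 ≤ q → ∀ k m : ℕ, s < k → m ≤ f → k < m →
      4 * 4096 * X ≤ γ k * 4096 ^ p → 4 * 4096 * X ≤ γ m * 4096 ^ q →
      (S p q K).card + 1 ≤ m - k := by
  classical
  have hT := h.T0
  have hX := h.Xpos
  have hW : 0 < 4 * 4096 * X := by positivity
  intro r
  induction r with
  | zero =>
    intro p q hK hp hq k m hk hm hkm _ _
    rw [S_empty p q K hp hq (by omega)]
    omega
  | succ r ih =>
    intro p q hK hp hq k m hk hm hkm h1 h2
    rcases Nat.lt_or_ge K (p + q) with hlt | hge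
    · rw [S_empty p q K hp hq hlt]
      omega
    have hgk := h.pos k hk (by omega)
    have hgm := h.pos m (by omega) hm
    have hprod : (4 * 4096 * X) * (4 * 4096 * X) ≤ γ k * γ m * 4096 ^ (p + q) := by
      calc (4 * 4096 * X) * (4 * 4096 * X) ≤ (γ k * 4096 ^ p) * (γ m * 4096 ^ q) :=
            mul_le_mul h1 h2 hW.le (by positivity)
        _ = γ k * γ m * 4096 ^ (p + q) := by rw [pow_add]; ring
    have hbPQ : (4096 : ℤ) ^ (p + q) ≤ 4096 ^ K := pow_le_pow_right₀ (by norm_num) hge
    have hgg : 0 ≤ γ k * γ m := by positivity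
    have hbig : 2 * (T * X) ≤ γ k * γ m := by
      have h3 : (4 * 4096 * X) * (4 * 4096 * X) ≤ γ k * γ m * 4096 ^ K :=
        hprod.trans (mul_le_mul_of_nonneg_left hbPQ hgg)
      have h4 : 2 * (T * X) * 4096 ^ K ≤ γ k * γ m * 4096 ^ K := by
        have h5 : (T * 4096 ^ K) * (2 * X) ≤ (8 * 4096 ^ 2 * X) * (2 * X) :=
          mul_le_mul_of_nonneg_right hbK (by linarith)
        calc 2 * (T * X) * 4096 ^ K = (T * 4096 ^ K) * (2 * X) := by ring
          _ ≤ (8 * 4096 ^ 2 * X) * (2 * X) := h5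
          _ = (4 * 4096 * X) * (4 * 4096 * X) := by ring
          _ ≤ _ := h3
      exact le_of_mul_le_mul_right h4 (by positivity)
    have hkey := h.key hk hm hkm
    set D : ℤ := a k - a (m - 1) with hD
    have hgD : γ k * γ m ≤ 4 * X * D := by linarith
    have hDb : 4 * 4096 ^ 2 * X ≤ D * 4096 ^ (p + q) := by
      have h5 : (4 * 4096 ^ 2 * X) * (4 * X) ≤ (D * 4096 ^ (p + q)) * (4 * X) := by
        calc (4 * 4096 ^ 2 * X) * (4 * X) = (4 * 4096 * X) * (4 * 4096 * X) := by ring
          _ ≤ γ k * γ m * 4096 ^ (p + q) := hprod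
          _ ≤ (4 * X * D) * 4096 ^ (p + q) := mul_le_mul_of_nonneg_right hgD (by positivity)
          _ = _ := by ring
      exact le_of_mul_le_mul_right h5 (by linarith)
    have hD0 : 0 < D := by
      have h5 : 0 < D * 4096 ^ (p + q) := lt_of_lt_of_le (by positivity) hDb
      exact (mul_pos_iff_of_pos_right (by positivity)).mp h5
    have htel := h.telescope (k := k) hk.le (m - 1) (by omega) (by omega)
    have hcs := card_S_le p q K hp hq
    rcases pig (Ioc k (m - 1)) γ (fun j hj => by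
        rw [mem_Ioc] at hj
        exact h.pos j (by omega) (by omega)) D (hD ▸ htel) hD0 with ⟨j, hj, hjD⟩ | ⟨v, hv, hcard⟩
    · rw [mem_Ioc] at hj
      have hjW : 4 * 4096 * X ≤ γ j * 4096 ^ (p + q) := by
        have h5 := mul_le_mul_of_nonneg_right hjD (show (0 : ℤ) ≤ 4096 ^ (p + q) by positivity)
        have h6 : (4 * 4096 * X) * 4096 ≤ (γ j * 4096 ^ (p + q)) * 4096 := by
          calc (4 * 4096 * X) * 4096 = 4 * 4096 ^ 2 * X := by ring
            _ ≤ D * 4096 ^ (p + q) := hDb
            _ ≤ γ j * 4096 * 4096 ^ (p + q) := h5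
            _ = _ := by ring
        exact le_of_mul_le_mul_right h6 (by norm_num)
      have i1 := ih p (p + q) (by omega) hp (by omega) k j hk (by omega) (by omega) h1 hjW
      have i2 := ih (p + q) q (by omega) (by omega) hq j m (by omega) hm (by omega) hjW h2
      omega
    · set B : Finset ℕ := (Ioc k (m - 1)).filter (fun j => D ≤ γ j * 4096 ^ (v + 1)) with hB
      have hBm : ∀ j ∈ B, k < j ∧ j < m ∧ 4 * 4096 * X ≤ γ j * 4096 ^ (p + q + v) := by
        intro j hj
        rw [hB, mem_filter, mem_Ioc] at hj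
        obtain ⟨⟨hj1, hj2⟩, hjD⟩ := hj
        refine ⟨hj1, by omega, ?_⟩
        have h5 := mul_le_mul_of_nonneg_right hjD (show (0 : ℤ) ≤ 4096 ^ (p + q) by positivity)
        have h6 : (4 * 4096 * X) * 4096 ≤ (γ j * 4096 ^ (p + q + v)) * 4096 := by
          calc (4 * 4096 * X) * 4096 = 4 * 4096 ^ 2 * X := by ring
            _ ≤ D * 4096 ^ (p + q) := hDb
            _ ≤ γ j * 4096 ^ (v + 1) * 4096 ^ (p + q) := h5
            _ = _ := by rw [pow_add _ (p + q) v, pow_succ]; ring
        exact le_of_mul_le_mul_right h6 (by norm_num)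
      have hBne : B.Nonempty := by
        rw [← card_pos]
        omega
      set w : ℕ := p + q + v with hw
      set g : ℕ := (S w w K).card + 1 with hg
      have hsp := spread B hBne g (by omega) (by
        intro i hi j hj hij
        obtain ⟨i1, i2, i3⟩ := hBm i hi
        obtain ⟨j1, j2, j3⟩ := hBm j hj
        exact ih w w (by omega) (by omega) (by omega) i j (by omega) (by omega) hij i3 j3)
      obtain ⟨x1, x2, x3⟩ := hBm _ (B.min'_mem hBne)
      obtain ⟨y1, y2, y3⟩ := hBm _ (B.max'_mem hBne)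
      have hxy : B.min' hBne ≤ B.max' hBne := B.min'_le _ (B.max'_mem hBne)
      have i1 := ih p w (by omega) hp (by omega) k _ hk (by omega) x1 h1 x3
      have i2 := ih w q (by omega) (by omega) hq _ m (by omega) hm y2 y3 h2
      have hdiag := card_S_diag w K (by omega)
      have hc1 := card_S_change p (p + q) K v hp (by omega)
      have hc2 := card_S_change q (p + q) K v hq (by omega)
      rw [card_S_comm q (p + q) K hq (by omega), card_S_comm q (p + q + v) K hq (by omega)] at hc2
      have hnum := numerics K (p + q) v (by omega) hv g (B.card - 1) hdiag (by omega)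
      rw [← hw] at hc1 hc2
      generalize hE : v * (K / (p + q)) ^ 2 = E at hnum hc1 hc2
      generalize hF : (B.card - 1) * g = F at hnum hsp
      generalize B.min' hBne = x at *
      generalize B.max' hBne = y at *
      omega

end Pool.Agent.H618.GZ
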