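import Mathlib
import Pool.Agent.H618.GZ.Core

/-!
# The distance between consecutive zeros of the gcd recursion with `n ^ p - 1`
-/

set_option autoImplicit false

namespace Pool.Agent.H618.GZ

open Filter Topology

lemma pow_add_le (s J : ℤ) (hs : 0 ≤ s) (hJ : 0 ≤ J) (q : ℕ) :
    (s + J) ^ (q + 1) ≤ s ^ (q + 1) + (q + 1) * J * (s + J) ^ q := by
  induction q with
  | zero => simp
  | succ q ih =>
    have h1 : (0 : ℤ) ≤ (s + J) ^ q := pow_nonneg (by linarith) _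
    have h2 : s * (s + J) ^ q ≤ (s + J) ^ (q + 1) := by
      rw [pow_succ, mul_comm]
      exact mul_le_mul_of_nonneg_left (by linarith) h1
    have h3 : ((q : ℤ) + 1) * J * (s * (s + J) ^ q) ≤ ((q : ℤ) + 1) * J * (s + J) ^ (q + 1) :=
      mul_le_mul_of_nonneg_left h2 (by positivity)
    have h4 := mul_le_mul_of_nonneg_left ih hs
    push_cast
    calc (s + J) ^ (q + 1 + 1) = s * (s + J) ^ (q + 1) + J * (s + J) ^ (q + 1) := by ring
      _ ≤ s * (s ^ (q + 1) + (q + 1) * J * (s + J) ^ q) + J * (s + J) ^ (q + 1) := by linarith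
      _ = s ^ (q + 1 + 1) + ((q : ℤ) + 1) * J * (s * (s + J) ^ q) + J * (s + J) ^ (q + 1) := by
        ring
      _ ≤ s ^ (q + 1 + 1) + ((q : ℤ) + 1) * J * (s + J) ^ (q + 1) + J * (s + J) ^ (q + 1) := by
        linarith
      _ = s ^ (q + 1 + 1) + ((q : ℤ) + 1 + 1) * J * (s + J) ^ (q + 1) := by ring

/-- the increase of `x ^ (q + 1)` from `s` to `s + J`, `J ≤ s` -/
lemma incr (s J : ℤ) (hs : 2 ≤ s) (hJ : 0 ≤ J) (hJs : J ≤ s) (q : ℕ) :
    ((s + J) ^ (q + 1) - s ^ (q + 1)) * s ≤ 2 * ((q + 1) * 2 ^ q) * J * (s ^ (q + 1) - 1) := by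
  have h1 := pow_add_le s J (by linarith) hJ q
  have h2 : (s + J) ^ q ≤ (2 * s) ^ q := pow_le_pow_left₀ (by linarith) (by linarith) q
  have h3 : ((q : ℤ) + 1) * J * (s + J) ^ q ≤ ((q : ℤ) + 1) * J * (2 * s) ^ q :=
    mul_le_mul_of_nonneg_left h2 (by positivity)
  have h4 : (s + J) ^ (q + 1) - s ^ (q + 1) ≤ ((q : ℤ) + 1) * J * (2 * s) ^ q := by linarith
  have h5 := mul_le_mul_of_nonneg_right h4 (show (0 : ℤ) ≤ s by linarith)
  have h6 : (2 : ℤ) ≤ s ^ (q + 1) := by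
    calc (2 : ℤ) ≤ s := hs
      _ = s ^ 1 := (pow_one s).symm
      _ ≤ s ^ (q + 1) := pow_le_pow_right₀ (by linarith) (by omega)
  have h7 : s ^ (q + 1) ≤ 2 * (s ^ (q + 1) - 1) := by linarith
  have h8 : ((q : ℤ) + 1) * 2 ^ q * J * s ^ (q + 1) ≤
      ((q : ℤ) + 1) * 2 ^ q * J * (2 * (s ^ (q + 1) - 1)) :=
    mul_le_mul_of_nonneg_left h7 (by positivity)
  calc ((s + J) ^ (q + 1) - s ^ (q + 1)) * s ≤ ((q : ℤ) + 1) * J * (2 * s) ^ q * s := h5
    _ = ((q : ℤ) + 1) * 2 ^ q * J * s ^ (q + 1) := by rw [mul_pow]; ring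
    _ ≤ _ := h8
    _ = _ := by ring

/-- the descent between two zeros -/
lemma dsc (q : ℕ) (a : ℕ → ℤ)
    (ha : ∀ n : ℕ, 2 ≤ n →
      a n = |a (n - 1) - ((Int.gcd (a (n - 1)) ((n : ℤ) ^ (q + 1) - 1) : ℕ) : ℤ)|)
    (n n' : ℕ) (hn : 1 ≤ n) (hnn : n < n') (h0 : a n = 0) (h0' : a n' = 0)
    (hne : ∀ k : ℕ, n < k → k < n' → a k ≠ 0) (J : ℕ) (hJ : n' = n + 1 + J)
    (hJn : 32 * ((q + 1) * 2 ^ q) * J ≤ n + 1) :
    Dsc (n + 1) n' J (fun k : ℕ => (k : ℤ) ^ (q + 1) - 1) a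
      (fun k => ((Int.gcd (a (k - 1)) ((k : ℤ) ^ (q + 1) - 1) : ℕ) : ℤ))
      (((n + 1 : ℕ) : ℤ) ^ (q + 1) - 1)
      ((n' : ℤ) ^ (q + 1) - ((n + 1 : ℕ) : ℤ) ^ (q + 1)) := by
  have hs2 : (2 : ℤ) ≤ ((n + 1 : ℕ) : ℤ) := by exact_mod_cast (by omega : 2 ≤ n + 1)
  have hX2 : (2 : ℤ) ≤ ((n + 1 : ℕ) : ℤ) ^ (q + 1) := by
    calc (2 : ℤ) ≤ ((n + 1 : ℕ) : ℤ) := hs2
      _ = ((n + 1 : ℕ) : ℤ) ^ 1 := (pow_one _).symm
      _ ≤ ((n + 1 : ℕ) : ℤ) ^ (q + 1) := pow_le_pow_right₀ (by linarith) (by omega)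
  have hone : a (n + 1) = ((n + 1 : ℕ) : ℤ) ^ (q + 1) - 1 := by
    rw [ha (n + 1) (by omega), Nat.add_sub_cancel, h0, Int.gcd_zero_left, zero_sub, abs_neg]
    rw [Int.natCast_natAbs, abs_abs, abs_of_nonneg (by linarith)]
  have hJ1 : 1 ≤ J := by
    by_contra hcon
    have : n' = n + 1 := by omega
    rw [this, hone] at h0'
    linarith
  have hnn0 : ∀ k, n + 1 ≤ k → k ≤ n' → 0 ≤ a k := by
    intro k hk _
    rw [ha k (by omega)]
    exact abs_nonneg _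
  have hpos : ∀ k, n + 1 < k → k ≤ n' → 0 < a (k - 1) := by
    intro k hk hk'
    exact lt_of_le_of_ne (hnn0 (k - 1) (by omega) (by omega))
      (Ne.symm (hne (k - 1) (by omega) (by omega)))
  have hJs : (J : ℤ) ≤ ((n + 1 : ℕ) : ℤ) := by
    have h1 : J ≤ 32 * ((q + 1) * 2 ^ q) * J := by
      have : 1 ≤ 32 * ((q + 1) * 2 ^ q) := by
        have := Nat.one_le_two_pow (n := q)
        nlinarith
      nlinarith
    exact_mod_cast h1.trans hJn
  have hn'e : (n' : ℤ) = ((n + 1 : ℕ) : ℤ) + J := by exact_mod_cast hJ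
  have hinc := incr ((n + 1 : ℕ) : ℤ) J hs2 (by positivity) hJs q
  refine ⟨hone, ?_, ?_, ?_, ?_, h0', hJ, hJ1, hnn0, rfl, ?_, by linarith, ?_⟩
  · intro k hk hk'
    have h1 := hpos k hk hk'
    rw [ha k (by omega), abs_of_nonneg]
    have := Int.le_of_dvd h1 (Int.gcd_dvd_left (a := a (k - 1)) (b := (k : ℤ) ^ (q + 1) - 1))
    linarith
  · intro k hk hk'
    have h1 := (hpos k hk hk').ne'
    have := Int.gcd_pos_of_ne_zero_left ((k : ℤ) ^ (q + 1) - 1) h1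
    exact_mod_cast this
  · intro k _ _
    exact Int.gcd_dvd_left _ _
  · intro k _ _
    exact Int.gcd_dvd_right _ _
  · intro k m hk hkm hm
    have h1 : (k : ℤ) ^ (q + 1) < (m : ℤ) ^ (q + 1) :=
      pow_lt_pow_left₀ (by exact_mod_cast hkm) (by positivity) (by omega)
    have h2 : (m : ℤ) ^ (q + 1) ≤ (n' : ℤ) ^ (q + 1) :=
      pow_le_pow_left₀ (by positivity) (by exact_mod_cast hm) _
    have h3 : ((n + 1 : ℕ) : ℤ) ^ (q + 1) ≤ (k : ℤ) ^ (q + 1) :=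
      pow_le_pow_left₀ (by positivity) (by exact_mod_cast hk) _
    exact ⟨by linarith, by linarith⟩
  · rw [hn'e]
    have hc : (32 : ℤ) * ((q + 1) * 2 ^ q) * J ≤ ((n + 1 : ℕ) : ℤ) := by exact_mod_cast hJn
    have h1 : 16 * ((((n + 1 : ℕ) : ℤ) + J) ^ (q + 1) - ((n + 1 : ℕ) : ℤ) ^ (q + 1)) *
        ((n + 1 : ℕ) : ℤ) ≤ (((n + 1 : ℕ) : ℤ) ^ (q + 1) - 1) * ((n + 1 : ℕ) : ℤ) := by
      have h2 : (32 : ℤ) * ((q + 1) * 2 ^ q) * J * (((n + 1 : ℕ) : ℤ) ^ (q + 1) - 1) ≤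
          ((n + 1 : ℕ) : ℤ) * (((n + 1 : ℕ) : ℤ) ^ (q + 1) - 1) :=
        mul_le_mul_of_nonneg_right hc (by linarith)
      linarith
    exact le_of_mul_le_mul_right h1 (by linarith)

lemma large (C : ℝ) : ∀ᶠ N : ℕ in atTop, (3 : ℝ) ≤ Real.log (Real.log N) ∧
    32 * C * (Real.log N) ^ 2 ≤ (N : ℝ) ∧ C ≤ 4 * Real.exp (Real.log N / 10) ∧
    24 ≤ Real.log N / Real.log (Real.log N) ∧ (1 : ℝ) ≤ Real.log N := by
  have hcast : Tendsto (fun N : ℕ => (N : ℝ)) atTop atTop := tendsto_natCast_atTop_atTop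
  have hlog : Tendsto (fun N : ℕ => Real.log N) atTop atTop := Real.tendsto_log_atTop.comp hcast
  have hll : Tendsto (fun N : ℕ => Real.log (Real.log N)) atTop atTop :=
    Real.tendsto_log_atTop.comp hlog
  have p4 : ∀ᶠ x : ℝ in atTop, 32 * C * (Real.log x) ^ 2 ≤ x := by
    have hc : (0 : ℝ) < 1 / (32 * (|C| + 1)) := by positivity
    have h1 := (Real.isLittleO_pow_log_id_atTop (n := 2)).def hc
    filter_upwards [h1, eventually_ge_atTop (1 : ℝ)] with x hx hx1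
    rw [Real.norm_eq_abs, Real.norm_eq_abs, id, abs_of_nonneg (by linarith : (0 : ℝ) ≤ x)] at hx
    have h2 := (le_abs_self _).trans hx
    have h3 : (32 * (|C| + 1)) * (Real.log x) ^ 2 ≤ x := by
      calc (32 * (|C| + 1)) * (Real.log x) ^ 2 ≤ (32 * (|C| + 1)) * (1 / (32 * (|C| + 1)) * x) :=
            mul_le_mul_of_nonneg_left h2 (by positivity)
        _ = x := by field_simp
    have h4 : C ≤ |C| + 1 := by linarith [le_abs_self C]
    have h5 : 32 * C * (Real.log x) ^ 2 ≤ (32 * (|C| + 1)) * (Real.log x) ^ 2 :=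
      mul_le_mul_of_nonneg_right (by linarith) (sq_nonneg _)
    linarith
  have p2 : ∀ᶠ y : ℝ in atTop, C ≤ 4 * Real.exp (y / 10) := by
    have h1 : Tendsto (fun y : ℝ => 4 * Real.exp (y / 10)) atTop atTop :=
      (Real.tendsto_exp_atTop.comp (tendsto_id.atTop_div_const (by norm_num))).const_mul_atTop
        (by norm_num)
    exact h1.eventually_ge_atTop C
  have p1 : ∀ᶠ x : ℝ in atTop, 24 ≤ x / Real.log x := by
    have h1 := (Real.isLittleO_log_id_atTop).def (show (0 : ℝ) < 1 / 24 by norm_num)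
    filter_upwards [h1, eventually_ge_atTop (3 : ℝ)] with x hx hx1
    rw [Real.norm_eq_abs, Real.norm_eq_abs, id, abs_of_nonneg (by linarith : (0 : ℝ) ≤ x)] at hx
    have h2 := (le_abs_self _).trans hx
    have h3 : 0 < Real.log x := Real.log_pos (by linarith)
    rw [le_div_iff₀ h3]
    linarith
  filter_upwards [hll.eventually_ge_atTop 3, hcast.eventually p4, hlog.eventually p2,
    hlog.eventually p1, hlog.eventually_ge_atTop 1] with N h1 h2 h3 h4 h5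
  exact ⟨h1, h2, h3, h4, h5⟩

/-- the distance between consecutive zeros -/
theorem gap (q : ℕ) :
    ∃ n₀ : ℕ, ∀ a : ℕ → ℤ,
      (∀ n : ℕ, 2 ≤ n →
        a n = |a (n - 1) - ((Int.gcd (a (n - 1)) ((n : ℤ) ^ (q + 1) - 1) : ℕ) : ℤ)|) →
      ∀ n n' : ℕ, n₀ ≤ n → n < n' → a n = 0 → a n' = 0 →
        (∀ k : ℕ, n < k → k < n' → a k ≠ 0) →
        (Real.log n / Real.log (Real.log n)) ^ 2 / 2304 ≤ (n' : ℝ) - n := by
  set C : ℝ := ((q : ℝ) + 1) * 2 ^ q with hC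
  have hC0 : 0 < C := by positivity
  obtain ⟨N₁, hN₁⟩ := eventually_atTop.1 (large C)
  refine ⟨max N₁ 3, fun a ha n n' hN hnn h0 h0' hne => ?_⟩
  have hN3 : 3 ≤ n := (le_max_right _ _).trans hN
  obtain ⟨h1, h2, h3, h4, h5⟩ := hN₁ n ((le_max_left _ _).trans hN)
  obtain ⟨J, hJ⟩ : ∃ J, n' = n + 1 + J := Nat.exists_eq_add_of_le hnn
  set L : ℝ := Real.log n with hL
  set l : ℝ := Real.log L with hl
  have hl0 : 0 < l := by linarith
  have hL0 : 0 < L := by linarith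
  have hn0 : (0 : ℝ) < n := by exact_mod_cast (by omega : 0 < n)
  by_contra hcon
  push Not at hcon
  have hn'r : (n' : ℝ) = n + 1 + J := by exact_mod_cast hJ
  have hJcon : (J : ℝ) + 1 < (L / l) ^ 2 / 2304 := by
    rw [hn'r] at hcon
    linarith
  have hJL : (J : ℝ) ≤ L ^ 2 := by
    have e1 : L / l ≤ L := div_le_self hL0.le (by linarith)
    have e2 : (L / l) ^ 2 ≤ L ^ 2 := pow_le_pow_left₀ (by positivity) e1 2
    have e3 : 0 ≤ (L / l) ^ 2 := by positivity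
    linarith
  have hJ0 : (0 : ℝ) ≤ J := by positivity
  have hJn : 32 * ((q + 1) * 2 ^ q) * J ≤ n + 1 := by
    have : 32 * C * (J : ℝ) ≤ (n : ℝ) + 1 := by
      have e1 : 32 * C * (J : ℝ) ≤ 32 * C * L ^ 2 := mul_le_mul_of_nonneg_left hJL (by positivity)
      linarith
    rw [hC] at this
    exact_mod_cast this
  have hd := dsc q a ha n n' (by omega) hnn h0 h0' hne J hJ hJn
  set K : ℕ := ⌊L / (6 * l)⌋₊ with hK
  have hx4 : 4 ≤ L / (6 * l) := by
    have e : L / (6 * l) = (L / l) / 6 := by field_simp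
    rw [e]
    linarith
  have hK1 : L / (6 * l) < K + 1 := Nat.lt_floor_add_one _
  have hK2 : (K : ℝ) ≤ L / (6 * l) := Nat.floor_le (by positivity)
  set M : ℕ := K / 2 with hM
  have hM2 : 2 * M ≤ K := Nat.mul_div_le K 2
  have hM3 : K ≤ 2 * M + 1 := by omega
  have hM3' : (K : ℝ) ≤ 2 * M + 1 := by exact_mod_cast hM3
  have hMlow : L / l / 24 ≤ (M : ℝ) := by
    have e : L / (6 * l) = (L / l) / 6 := by field_simp
    rw [e] at hK1
    linarith
  have hM1 : 1 ≤ M := by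
    have : (1 : ℝ) ≤ M := by linarith
    exact_mod_cast this
  have hJ1 := hd.hJ1
  have hg1 : (1 : ℝ) ≤ J := by exact_mod_cast hJ1
  have hpowR : C * (64 * (J : ℝ) ^ 2) ^ K ≤ 4 * (n : ℝ) := by
    have hb0 : (0 : ℝ) < 64 * (J : ℝ) ^ 2 := by positivity
    have hlogb : Real.log (64 * (J : ℝ) ^ 2) ≤ 27 / 5 * l := by
      have e1 : Real.log (64 * (J : ℝ) ^ 2) ≤ Real.log (64 * L ^ 4) := by
        apply Real.log_le_log hb0
        have e1 : (J : ℝ) ^ 2 ≤ (L ^ 2) ^ 2 := pow_le_pow_left₀ hJ0 hJL 2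
        have e2 : (L ^ 2) ^ 2 = L ^ 4 := by ring
        rw [e2] at e1
        linarith
      have e2 : Real.log (64 * L ^ 4) = Real.log 64 + 4 * l := by
        rw [Real.log_mul (by norm_num) (by positivity), Real.log_pow]
        push_cast
        ring
      have e3 : Real.log 64 ≤ 21 / 5 := by
        have : (64 : ℝ) = 2 ^ 6 := by norm_num
        rw [this, Real.log_pow]
        have := Real.log_two_lt_d9
        push_cast
        linarith
      linarith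
    have hlogK : (K : ℝ) * Real.log (64 * (J : ℝ) ^ 2) ≤ 9 / 10 * L := by
      have hb1 : 0 ≤ Real.log (64 * (J : ℝ) ^ 2) := Real.log_nonneg (by nlinarith)
      calc (K : ℝ) * Real.log (64 * (J : ℝ) ^ 2) ≤ L / (6 * l) * (27 / 5 * l) :=
            mul_le_mul hK2 hlogb hb1 (by positivity)
        _ = 9 / 10 * L := by field_simp; ring
    have hreal : (64 * (J : ℝ) ^ 2) ^ K ≤ Real.exp (9 / 10 * L) := by
      rw [← Real.log_le_iff_le_exp (by positivity), Real.log_pow]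
      exact hlogK
    have hexp : Real.exp (L / 10) * Real.exp (9 / 10 * L) = n := by
      rw [← Real.exp_add]
      have : L / 10 + 9 / 10 * L = L := by ring
      rw [this, hL, Real.exp_log hn0]
    calc C * (64 * (J : ℝ) ^ 2) ^ K ≤ (4 * Real.exp (L / 10)) * Real.exp (9 / 10 * L) :=
          mul_le_mul h3 hreal (by positivity) (by positivity)
      _ = 4 * (Real.exp (L / 10) * Real.exp (9 / 10 * L)) := by ring
      _ = 4 * n := by rw [hexp]
  have hpowZ : (((q : ℤ) + 1) * 2 ^ q) * (64 * (J : ℤ) ^ 2) ^ K ≤ 4 * ((n + 1 : ℕ) : ℤ) := by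
    have : C * (64 * (J : ℝ) ^ 2) ^ K ≤ 4 * ((n + 1 : ℕ) : ℝ) := by
      push_cast
      linarith
    rw [hC] at this
    exact_mod_cast this
  have hJs : (J : ℤ) ≤ ((n + 1 : ℕ) : ℤ) := by
    have h1 : J ≤ 32 * ((q + 1) * 2 ^ q) * J := by
      have : 1 ≤ 32 * ((q + 1) * 2 ^ q) := by
        have := Nat.one_le_two_pow (n := q)
        nlinarith
      nlinarith
    exact_mod_cast h1.trans hJn
  have hinc := incr ((n + 1 : ℕ) : ℤ) J (by exact_mod_cast (by omega : 2 ≤ n + 1))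
    (by positivity) hJs q
  have hn'e : (n' : ℤ) = ((n + 1 : ℕ) : ℤ) + J := by exact_mod_cast hJ
  have hfin := hd.finite K M hM1 hM2 (by
    rw [hn'e]
    set s : ℤ := ((n + 1 : ℕ) : ℤ) with hs
    have hs0 : (0 : ℤ) < s := by rw [hs]; positivity
    have hX := hd.Xpos
    have hJz : (1 : ℤ) ≤ J := by exact_mod_cast hJ1
    set B : ℤ := (64 * (J : ℤ) ^ 2) ^ K with hB
    have hB0 : 0 ≤ B := by positivity
    have e1 : ((s + J) ^ (q + 1) - s ^ (q + 1)) * s * B ≤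
        2 * ((q + 1) * 2 ^ q) * J * (s ^ (q + 1) - 1) * B := mul_le_mul_of_nonneg_right hinc hB0
    have e2 : 2 * (((q : ℤ) + 1) * 2 ^ q) * J * (s ^ (q + 1) - 1) * B =
        (2 * J * (s ^ (q + 1) - 1)) * ((((q : ℤ) + 1) * 2 ^ q) * B) := by ring
    have e3 : (2 * J * (s ^ (q + 1) - 1)) * ((((q : ℤ) + 1) * 2 ^ q) * B) ≤
        (2 * J * (s ^ (q + 1) - 1)) * (4 * s) :=
      mul_le_mul_of_nonneg_left hpowZ (by positivity)
    have e4 : (2 * J * (s ^ (q + 1) - 1)) * (4 * s) ≤ (8 * (s ^ (q + 1) - 1) * J ^ 2) * s := by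
      have e5 : (J : ℤ) ≤ J ^ 2 := by nlinarith
      have e6 : (8 * (s ^ (q + 1) - 1) * s) * (J : ℤ) ≤ (8 * (s ^ (q + 1) - 1) * s) * J ^ 2 :=
        mul_le_mul_of_nonneg_left e5 (by positivity)
      calc (2 * J * (s ^ (q + 1) - 1)) * (4 * s) = (8 * (s ^ (q + 1) - 1) * s) * (J : ℤ) := by
            ring
        _ ≤ _ := e6
        _ = _ := by ring
    have e7 : (((s + J) ^ (q + 1) - s ^ (q + 1)) * B) * s ≤
        (8 * (s ^ (q + 1) - 1) * J ^ 2) * s := by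
      calc (((s + J) ^ (q + 1) - s ^ (q + 1)) * B) * s =
            ((s + J) ^ (q + 1) - s ^ (q + 1)) * s * B := by ring
        _ ≤ _ := e1
        _ = _ := e2
        _ ≤ _ := e3
        _ ≤ _ := e4
    exact le_of_mul_le_mul_right e7 hs0)
  have hsq : (L / l / 24) ^ 2 ≤ (M : ℝ) ^ 2 := pow_le_pow_left₀ (by positivity) hMlow 2
  have e : (L / l / 24) ^ 2 = (L / l) ^ 2 / 576 := by ring
  rw [e] at hsq
  linarith

end Pool.Agent.H618.GZ
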