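import Mathlib
import Pool.Agent.H618.GZ.Tree

/-!
# The length of a descent: two large gcds, or very many of them
-/

set_option autoImplicit false

namespace Pool.Agent.H618.GZ

open Finset Pool.Agent.R330.GL

variable {s f J : ℕ} {V a γ : ℕ → ℤ} {X T : ℤ}

/-- a descent by at least `X / 16` between `k` and `m` contains a large gcd, or it is long -/
lemma Dsc.part (h : Dsc s f J V a γ X T) (K : ℕ)
    (hbK : T * 4096 ^ K ≤ 8 * 4096 ^ 2 * X) {k m : ℕ} (hk : s ≤ k) (hkm : k ≤ m) (hm : m ≤ f)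
    (hD : X ≤ 16 * (a k - a m)) :
    (∃ j, k < j ∧ j ≤ m ∧ 4 * 4096 * X ≤ γ j * 4096 ^ 3) ∨ K ^ 2 ≤ 180 * J := by
  classical
  have hT := h.T0
  have hX := h.Xpos
  have hJ := h.hJ
  have hD0 : 0 < a k - a m := by linarith
  rcases pig (Ioc k m) γ (fun j hj => by
      rw [mem_Ioc] at hj
      exact h.pos j (by omega) (by omega)) (a k - a m) (h.telescope hk m hkm hm) hD0 with
      ⟨j, hj, hjD⟩ | ⟨v, hv, hcard⟩
  · left
    rw [mem_Ioc] at hj
    have hgj := h.pos j (by omega) (by omega)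
    exact ⟨j, hj.1, hj.2, by linarith⟩
  · right
    set B : Finset ℕ := (Ioc k m).filter (fun j => a k - a m ≤ γ j * 4096 ^ (v + 1)) with hB
    have hBm : ∀ j ∈ B, k < j ∧ j ≤ m ∧ 4 * 4096 * X ≤ γ j * 4096 ^ (v + 3) := by
      intro j hj
      rw [hB, mem_filter, mem_Ioc] at hj
      obtain ⟨⟨hj1, hj2⟩, hjD⟩ := hj
      have hgj := h.pos j (by omega) (by omega)
      refine ⟨hj1, hj2, ?_⟩
      have h5 : X ≤ 16 * (γ j * 4096 ^ (v + 1)) := by linarith
      have h6 : 0 ≤ γ j * 4096 ^ (v + 1) := by positivity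
      calc 4 * 4096 * X ≤ 4 * 4096 * (16 * (γ j * 4096 ^ (v + 1))) := by linarith
        _ ≤ 4096 ^ 2 * (γ j * 4096 ^ (v + 1)) := by linarith
        _ = _ := by ring
    have hBne : B.Nonempty := by
      rw [← card_pos]
      omega
    set w : ℕ := v + 3 with hw
    set g : ℕ := (S w w K).card + 1 with hg
    have hsp := spread B hBne g (by omega) (by
      intro i hi j hj hij
      obtain ⟨i1, i2, i3⟩ := hBm i hi
      obtain ⟨j1, j2, j3⟩ := hBm j hj
      exact h.farey2 K hbK K w w (by omega) (by omega) (by omega) i j (by omega) (by omega)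
        hij i3 j3)
    obtain ⟨x1, x2, x3⟩ := hBm _ (B.min'_mem hBne)
    obtain ⟨y1, y2, y3⟩ := hBm _ (B.max'_mem hBne)
    have hdiag := card_S_diag w K (by omega)
    set Z := K / w with hZ
    have hKZ : K < (Z + 1) * w := by
      have := Nat.lt_div_mul_add (a := K) (b := w) (by omega)
      rw [← hZ] at this
      calc K < Z * w + w := this
        _ = _ := by ring
    have h1 : (B.card - 1) * g ≤ J := by omega
    have h2 : 160 * v ^ 3 * g ≤ J := (Nat.mul_le_mul_right _ (by omega)).trans h1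
    have h3 : 8 * v ^ 3 * (Z + 1) ^ 2 ≤ J := by
      calc 8 * v ^ 3 * (Z + 1) ^ 2 ≤ 8 * v ^ 3 * (20 * g) := Nat.mul_le_mul_left _ hdiag
        _ = 160 * v ^ 3 * g := by ring
        _ ≤ J := h2
    have h4 : w ≤ 4 * v := by omega
    have h5 : K ^ 2 ≤ ((Z + 1) * (4 * v)) ^ 2 :=
      Nat.pow_le_pow_left (hKZ.le.trans (Nat.mul_le_mul_left _ h4)) 2
    have h8 : K ^ 2 ≤ 2 * J := by
      have h9 : v ^ 2 * K ^ 2 ≤ v ^ 2 * (2 * J) := by
        have e0 : v ^ 2 * K ^ 2 ≤ 2 * v * J := by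
          calc v ^ 2 * (K ^ 2) ≤ v ^ 2 * ((Z + 1) * (4 * v)) ^ 2 := Nat.mul_le_mul_left _ h5
            _ = 2 * v * (8 * v ^ 3 * (Z + 1) ^ 2) := by ring
            _ ≤ 2 * v * J := Nat.mul_le_mul_left _ h3
        have e1 : v ≤ v ^ 2 := by nlinarith
        calc v ^ 2 * K ^ 2 ≤ 2 * v * J := e0
          _ = v * (2 * J) := by ring
          _ ≤ v ^ 2 * (2 * J) := Nat.mul_le_mul_right _ e1
      exact Nat.le_of_mul_le_mul_left h9 (by positivity)
    omega

/-- the lower bound in a finite form -/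
lemma Dsc.finite2 (h : Dsc s f J V a γ X T) (K : ℕ)
    (hbK : T * 4096 ^ K ≤ 8 * 4096 ^ 2 * X) : K ^ 2 ≤ 180 * J := by
  classical
  have hT := h.T0
  have hX := h.Xpos
  have hTX := h.TX
  have hJ := h.hJ
  have hJ1 := h.hJ1
  have hex : ∃ k, s ≤ k ∧ k ≤ f ∧ X ≤ 16 * (X - a k) :=
    ⟨f, by omega, le_rfl, by rw [h.zero]; linarith⟩
  set n1 := Nat.find hex with hn1
  obtain ⟨hk1, hkf, hk2⟩ := Nat.find_spec hex
  rw [← hn1] at hk1 hkf hk2
  have hn12 : s < n1 := by
    by_contra hcon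
    have : n1 = s := by omega
    rw [this, h.one] at hk2
    linarith
  have hprev : 16 * (X - a (n1 - 1)) < X := by
    by_contra hcon
    exact Nat.find_min hex (m := n1 - 1) (by omega) ⟨by omega, by omega, by linarith⟩
  have hstep := h.step n1 hn12 hkf
  have hup := h.up (n := n1 - 1) (by omega) (by omega)
  have hVn := h.Vle (k := n1) (by omega) hkf
  have hg1 : γ n1 ≤ V n1 - a (n1 - 1) := by
    apply Int.le_of_dvd
    · have h3 := h.Vlt s n1 le_rfl hn12 hkf
      rw [h.Vs] at h3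
      linarith [h3.1]
    · exact dvd_sub (h.dvdV n1 hn12 hkf) (h.dvda n1 hn12 hkf)
  have hquart : 13 * X < 16 * a n1 := by
    rw [hstep]
    linarith [hVn.2]
  have hone := h.one
  have hzero := h.zero
  rcases h.part K hbK (k := s) (m := n1) le_rfl hk1 hkf (by rw [hone]; exact hk2) with
    ⟨j, j1, j2, j3⟩ | hc
  · rcases h.part K hbK (k := n1) (m := f) hk1 hkf le_rfl (by rw [hzero]; linarith) with
      ⟨i, i1, i2, i3⟩ | hc
    · have h3 := h.farey2 K hbK K 3 3 (by omega) (by norm_num) (by norm_num) j i j1 i2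
        (by omega) j3 i3
      have h4 := card_S_diag 3 K (by norm_num)
      have h5 : (K / 3 + 1) ^ 2 ≤ 20 * J := by omega
      have h6 : K ≤ 3 * (K / 3 + 1) := by omega
      have h7 : K ^ 2 ≤ (3 * (K / 3 + 1)) ^ 2 := Nat.pow_le_pow_left h6 2
      calc K ^ 2 ≤ (3 * (K / 3 + 1)) ^ 2 := h7
        _ = 9 * (K / 3 + 1) ^ 2 := by ring
        _ ≤ 9 * (20 * J) := Nat.mul_le_mul_left _ h5
        _ = 180 * J := by ring
    · exact hc
  · exact hc

end Pool.Agent.H618.GZ
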